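import Pool.Agent.ZPT.StmtsB

/-!
Squad ZP3 (MP_6e1a06_nt): three isogenous coordinates on translates of curves whose closure may have
boundary points with two infinite coordinates.  Definitions.
-/

set_option autoImplicit false

namespace Pool.Agent.ZP3

open Polynomial Pool.Agent.ZPT

noncomputable section

/-- Integral and unramified modulo `p`: `a ^ (p ^ F) ≡ a` modulo `p` for some `F ≥ 1`. -/
def Ur (p : ℕ) {K : Type} [NormedField K] (a : K) : Prop :=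
  ‖a‖ ≤ 1 ∧ ∃ F : ℕ, 1 ≤ F ∧ ‖a ^ (p ^ F) - a‖ ≤ (p : ℝ)⁻¹

/-- Unramified units. -/
def Uu (p : ℕ) {K : Type} [NormedField K] (a : K) : Prop := Ur p a ∧ ‖a‖ = 1

/-- Roots of unity of order prime to `p`. -/
def Tame (p : ℕ) {K : Type} [NormedField K] (x : K) : Prop :=
  ∃ M : ℕ, 1 ≤ M ∧ ¬ p ∣ M ∧ x ^ M = 1

/-- Roots of unity. -/
def Ro {K : Type} [NormedField K] (x : K) : Prop := ∃ M : ℕ, 1 ≤ M ∧ x ^ M = 1

/-- The real number `p ^ (-1/(p-1))`, the norm of `w - 1` for a primitive `p`-th root of unity. -/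
def th (p : ℕ) : ℝ := (p : ℝ) ^ (-(1 : ℝ) / ((p : ℝ) - 1))

/-- Power series over the algebraic numbers with coefficients in a finitely generated ring. -/
def FG (f : PowerSeries Qb) : Prop :=
  ∃ S : Finset Qb, ∀ n, PowerSeries.coeff n f ∈ Subring.closure (S : Set Qb)

/-- Value at `t` of a power series with algebraic coefficients, seen in `K`. -/
def evK {K : Type} [NormedField K] (ι : Qb →+* K) (f : PowerSeries Qb) (t : K) : K :=
  ∑' n : ℕ, ι (PowerSeries.coeff n f) * t ^ n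

/-- Value of `G` with inner variable `x` and outer variable `y`. -/
def evQ {K : Type} [Field K] (ι : Qb →+* K) (G : Qb[X][X]) (x y : K) : K :=
  (G.map (Polynomial.eval₂RingHom ι x)).eval y

/-- No point of the closure of `V P` in `(P^1)^n` has three infinite coordinates. -/
def BddTriples {n : ℕ} (P : Ideal (MvPolynomial (Fin n) ℂ)) : Prop :=
  ∃ B : ℝ, ∀ x ∈ V P, ∀ i j k : Fin n, i ≠ j → j ≠ k → i ≠ k → ‖x i‖ ≤ B ∨ ‖x j‖ ≤ B ∨ ‖x k‖ ≤ B

/-- The same in algebraic form. -/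
def NoTriple {n : ℕ} (P : Ideal (MvPolynomial (Fin n) ℂ)) : Prop :=
  ∀ i j k : Fin n, i ≠ j → j ≠ k → i ≠ k → ∃ G ∈ P, G.vars ⊆ {i, j, k} ∧
    MvPolynomial.coeff (Finsupp.single i (MvPolynomial.degreeOf i G) +
      Finsupp.single j (MvPolynomial.degreeOf j G) +
      Finsupp.single k (MvPolynomial.degreeOf k G)) G ≠ 0

/-- Three coordinates chained by isogenies (for `n = 3` this is `Atyp`). -/
def Atyp3 {n : ℕ} (x : Fin n → ℂ) : Prop :=
  ∃ i j k : Fin n, i ≠ j ∧ j ≠ k ∧ i ≠ k ∧ Isog (x i) (x j) ∧ Isog (x j) (x k)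

/-- If no two coordinates are identically isogenous on `V P + c` then only finitely many points of
`V P + c` have three coordinates chained by isogenies. -/
def T3For {n : ℕ} (P : Ideal (MvPolynomial (Fin n) ℂ)) (c : Fin n → ℂ) : Prop :=
  (∀ i j : Fin n, i ≠ j → ¬ ∀ x ∈ V P, Isog (x i + c i) (x j + c j)) →
  {x : Fin n → ℂ | x ∈ V P ∧ Atyp3 (fun i => x i + c i)}.Finite

/-- The local situation at a point near a boundary point with two infinite coordinates: `t` is the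
parameter, `x₂ = t ^ (-e)`, `x₁ = t ^ (-r) Σ A_n t ^ n`, `x₃` is integral, `X_i = x_i + γ_i / p` is
the `j`-invariant with Tate parameter `q_i`, and the three parameters are multiplicatively
dependent. -/
structure Pt (p : ℕ) {K : Type} [NormedField K] (U : PowerSeries ℚ) (e r : ℕ) (A : ℕ → K)
    (g₁ g₂ g₃ : K) (t x₃ q₁ q₂ q₃ : K) : Prop where
  t0 : 0 < ‖t‖
  t1 : ‖t‖ < 1
  hx : ‖x₃‖ ≤ 1
  q10 : 0 < ‖q₁‖
  q11 : ‖q₁‖ < 1
  q20 : 0 < ‖q₂‖
  q21 : ‖q₂‖ < 1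
  q30 : 0 < ‖q₃‖
  q31 : ‖q₃‖ < 1
  e1 : jv U q₁ = (∑' n : ℕ, A n * t ^ n) / t ^ r + g₁ / p
  e2 : jv U q₂ = 1 / t ^ e + g₂ / p
  e3 : jv U q₃ = x₃ + g₃ / p
  d13 : ∃ a b : ℕ, 1 ≤ a ∧ 1 ≤ b ∧ q₁ ^ a = q₃ ^ b
  d23 : ∃ a b : ℕ, 1 ≤ a ∧ 1 ≤ b ∧ q₂ ^ a = q₃ ^ b

end

end Pool.Agent.ZP3
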