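import Pool.Agent.ZP3.Stmts

/-!
Squad ZP3 (MP_6e1a06_nt): statements with proofs, blocks P (Puiseux series with coefficients in a
finitely generated ring), G (geometry of the curve), F (finiteness), D (density).
-/

set_option autoImplicit false

namespace Pool.Agent.ZP3

open Polynomial Pool.Agent.ZPT

noncomputable section

/-! ### Block P: Puiseux series -/

/-- HEN.  Hensel's lemma for factorisations over `R⟦t⟧`.  PROOF.  Let `F_n ∈ R[X]` be the coefficient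
of `t^n` in `F` (degree `< deg F` for `n ≥ 1` since `F` is monic).  Define recursively `A₀ = a`,
`H₀ = h`, `C_n = F_n - Σ_{0<i<n} A_i H_{n-i}`, `A_n = (v C_n) %ₘ a`,
`H_n = u C_n + h ((v C_n) /ₘ a)`; then `a H_n + h A_n = C_n`, `deg A_n < deg a`, and
`deg (a H_n) < deg a + deg h`, so `deg H_n < deg h` (`a` monic).  `A = Σ A_n t^n`: the polynomial over
`R⟦t⟧` of degree `deg a` whose coefficient at `X^j` is `PowerSeries.mk (fun n => (A_n).coeff j)`; the same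
for `H`. -/
def HENStmt : Prop := ∀ (R : Type) [CommRing R] (F : (PowerSeries R)[X]) (a h u v : R[X]),
  F.Monic → a.Monic → h.Monic → u * a + v * h = 1 →
  F.map (PowerSeries.constantCoeff (R := R)) = a * h →
  ∃ A H : (PowerSeries R)[X], A.Monic ∧ H.Monic ∧ F = A * H ∧
    A.map (PowerSeries.constantCoeff (R := R)) = a ∧ H.map (PowerSeries.constantCoeff (R := R)) = h

/-- FGS.  Closure properties of `FG`.  (Inverse: if `c = f(0) ≠ 0`, all coefficients of `f⁻¹` are in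
`ℤ[S, c⁻¹]` by induction from `f f⁻¹ = 1`.) -/
def FGSStmt : Prop :=
  (∀ f g : PowerSeries Qb, FG f → FG g → FG (f + g) ∧ FG (f * g) ∧ FG (-f) ∧ FG (f - g)) ∧
  (∀ a : Qb, FG (PowerSeries.C a)) ∧ FG (PowerSeries.X : PowerSeries Qb) ∧
  (∀ f : PowerSeries Qb, FG f → PowerSeries.constantCoeff f ≠ 0 → FG f⁻¹) ∧
  (∀ (m : ℕ) (hm : m ≠ 0) (f : PowerSeries Qb), FG f → FG (PowerSeries.expand m hm f)) ∧
  (∀ (k : ℕ) (f : PowerSeries Qb), FG (PowerSeries.X ^ k * f) → FG f)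

/-- PUF.  One factorisation over `Qb⟦t⟧` with finitely generated coefficients.  Uses HEN.  PROOF.  Let
`R = Subring.closure S`, `S` containing generators for the coefficients of `F`, the coefficients of
`a`, `h` and of `u`, `v` with `u a + v h = 1`.  `F`, `a`, `h`, `u`, `v` come from `R`; apply HEN and
map back along `R → Qb`. -/
def PUFStmt : Prop := ∀ F : (PowerSeries Qb)[X], F.Monic → (∀ i, FG (F.coeff i)) →
  ∀ a h : Qb[X], a.Monic → h.Monic → IsCoprime a h →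
  F.map (PowerSeries.constantCoeff (R := Qb)) = a * h →
  ∃ A H : (PowerSeries Qb)[X], A.Monic ∧ H.Monic ∧ (∀ i, FG (A.coeff i)) ∧ (∀ i, FG (H.coeff i)) ∧
    F = A * H ∧ A.natDegree = a.natDegree ∧ H.natDegree = h.natDegree

/-- PUM.  Puiseux's theorem.  Uses PUF, FGS.  PROOF by strong induction on `d = deg F`.  `d ≤ 1`:
`m = 1`.  `d ≥ 2`: replacing `X` by `X - a_(d-1)/d` (Taylor shift; roots are shifted by an `FG` series)
we may assume `a_(d-1) = 0`.  If all `a_i = 0`, `i < d`, then `F = X^d`.  Otherwise let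
`μ = min_{i<d} ord(a_i)/(d-i) = u/w` over the `a_i ≠ 0`; after `expand w` we have
`ord a_i ≥ (d-i) u` with equality for some `i`.  Put `a_i = t^((d-i)u) b_i`; `F₁ = X^d + Σ b_i X^i` has
`FG` coefficients, `F(t^u X) = t^(u d) F₁(X)`, and `f = F₁ mod t ∈ Qb[X]` is monic of degree `d`, has
coefficient `0` at `X^(d-1)` and is not `X^d`, so it is not a power `(X - c)^d`.  `Qb` is algebraically
closed: `f = (X - c)^k h` with `h(c) ≠ 0`, `1 ≤ k < d`.  PUF gives `F₁ = A H`, degrees `k`, `d - k`;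
induction for `A` (exponent `m₁`) and `H` (exponent `m₂`), expand to `m₁ m₂`; the roots of `F` are
`t^(u m₁ m₂)` times those of `F₁`. -/
def PUMStmt : Prop := ∀ F : (PowerSeries Qb)[X], F.Monic → (∀ i, FG (F.coeff i)) →
  ∃ (m : ℕ) (hm : m ≠ 0) (s : Multiset (PowerSeries Qb)), (∀ ρ ∈ s, FG ρ) ∧
    F.map (PowerSeries.expand (R := Qb) m hm : PowerSeries Qb →+* PowerSeries Qb) =
      (s.map fun ρ => (X - C ρ : (PowerSeries Qb)[X])).prod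

/-- EVF.  Evaluation at `t`, `‖t‖ < 1`, is a ring homomorphism on the series with coefficients in
`Subring.closure S`, `‖ι g‖ ≤ 1` for `g ∈ S` (then all coefficients have norm `≤ 1` and everything
converges absolutely). -/
def EVFStmt : Prop := ∀ (K : Type) [NormedField K] [CharZero K] [IsUltrametricDist K]
  [CompleteSpace K] (ι : Qb →+* K) (S : Finset Qb), (∀ g ∈ S, ‖ι g‖ ≤ 1) → ∀ t : K, ‖t‖ < 1 →
  ∀ f g : PowerSeries Qb, (∀ n, PowerSeries.coeff n f ∈ Subring.closure (S : Set Qb)) →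
    (∀ n, PowerSeries.coeff n g ∈ Subring.closure (S : Set Qb)) →
    evK ι (f + g) t = evK ι f t + evK ι g t ∧ evK ι (f * g) t = evK ι f t * evK ι g t ∧
    evK ι (-f) t = -evK ι f t ∧ (∀ a : Qb, evK ι (PowerSeries.C a) t = ι a) ∧
    evK ι PowerSeries.X t = t ∧ (∀ (m : ℕ) (hm : m ≠ 0), evK ι (PowerSeries.expand m hm f) t =
      evK ι f (t ^ m)) ∧ ‖evK ι f t - ι (PowerSeries.constantCoeff f)‖ ≤ ‖t‖ ∧ ‖evK ι f t‖ ≤ 1

/-- PPT.  Points of a plane curve near infinity.  Uses PUM, FGS, EVF, URA.  Here `x₂` is the inner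
variable of `G`, `x₁` the outer one.  PROOF.  `G = Σ_{i≤d} g_i(x₂) x₁^i`, `g_d ≠ 0`.  If `d = 0`,
`g_0(x₂) = 0` is impossible for `‖x₂‖ > 1` and large `p` (the leading coefficient of `g_0` has norm 1,
the others `≤ 1`): `L = 0`.  `d ≥ 1`: `s = 1/x₂`, `g̃_i(s) = s^D g_i(1/s) ∈ Qb[s]`, `D` large;
`W = g̃_d(s) x₁` is a root of the monic `F = X^d + Σ_{i<d} g̃_i g̃_d^(d-1-i) X^i` over `Qb⟦s⟧`.  PUM:
with `s = t^e` (`e = m`; choose a root `t` of `x₂⁻¹`) `F(t^e; X) = Π (X - ρ_l(t))`, evaluate (EVF):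
`W = ρ_l(t)` for some `l`.  Write `g̃_d(t^e) = t^k g*(t)`, `g*(0) ≠ 0`, and, if `ρ_l ≠ 0`,
`ρ_l = t^j ρ*(t)`, `ρ*(0) ≠ 0`: `x₁ = t^(j-k) A(t)`, `A = ρ*/g*` is `FG` with `A(0) ≠ 0`.  Since
`‖x₁‖ ≥ ‖x₂‖ > 1`, `ρ_l ≠ 0` and (`‖A(t)‖ = 1`) `‖t‖^(j-k) ≥ ‖t‖^(-e)`, so `r = k - j ≥ e`; keep only
the `l` with this property.  Large `p`: all coefficients in `Ur` (URA, URR), `A(0)` and the leading
coefficients of norm 1. -/
def PPTStmt : Prop := ∀ G : Qb[X][X], G ≠ 0 → ∃ (e L : ℕ) (r : Fin L → ℕ) (A : Fin L → ℕ → Qb)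
  (p₀ : ℕ), 1 ≤ e ∧ (∀ l, e ≤ r l) ∧ (∀ l, A l 0 ≠ 0) ∧ ∀ p : ℕ, p.Prime → p₀ ≤ p →
  ∀ (K : Type) [NormedField K] [CharZero K] [IsUltrametricDist K] [CompleteSpace K] [IsAlgClosed K],
  Ext p K → ∀ ι : Qb →+* K, (∀ l n, Ur p (ι (A l n))) ∧ (∀ l, ‖ι (A l 0)‖ = 1) ∧
    ∀ x₂ x₁ : K, 1 < ‖x₂‖ → ‖x₂‖ ≤ ‖x₁‖ → evQ ι G x₂ x₁ = 0 →
      ∃ (l : Fin L) (t : K), 0 < ‖t‖ ∧ ‖t‖ < 1 ∧ x₂ = 1 / t ^ e ∧
        x₁ = (∑' n : ℕ, ι (A l n) * t ^ n) / t ^ r l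

/-- BET.  The value of an integral coordinate near infinity.  PROOF.  `G = Σ_j x₂^j h_j(x₃)` with
`h_j ∈ Qb[X]`, `h_D ≠ 0` the last one (rewrite `G`, inner variable `x₂`, outer variable `x₃`).  For
large `p` all coefficients have norm `≤ 1` and the leading coefficient `c` of `h_D` norm 1; the roots
`β` of `h_D` (algebraic numbers, `B` is the set of them) are in `Ur` by URA.
`h_D(x₃) = - Σ_{j<D} x₂^(j-D) h_j(x₃)` has norm `≤ 1/‖x₂‖`, and it is `c Π (x₃ - β)`; so with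
`k = max 1 (deg h_D)` some `β` has `‖x₃ - β‖^k ≤ 1/‖x₂‖` (if `deg h_D = 0` this is a contradiction,
`B = ∅` allowed). -/
def BETStmt : Prop := ∀ G : Qb[X][X], G ≠ 0 → ∃ (B : Finset Qb) (k p₀ : ℕ), 1 ≤ k ∧
  ∀ p : ℕ, p.Prime → p₀ ≤ p → ∀ (K : Type) [NormedField K] [CharZero K] [IsUltrametricDist K],
  Ext p K → ∀ ι : Qb →+* K, (∀ β ∈ B, Ur p (ι β)) ∧
    ∀ x₂ x₃ : K, 1 < ‖x₂‖ → ‖x₃‖ ≤ 1 → evQ ι G x₂ x₃ = 0 → ∃ β ∈ B, ‖x₃ - ι β‖ ^ k ≤ ‖x₂‖⁻¹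

/-! ### Block G: the curve -/

/-- PLN.  Plane equations.  Uses LA.  PROOF.  `i = j`: `G = X - C X`.  `i ≠ j`: `A = ℂ[X]/P` has
dimension 1, hence transcendence degree 1, so the classes of `X_i`, `X_j` are algebraically dependent:
some nonzero `g ∈ P` involves only `X_i`, `X_j`; by LA (with any exponent of its support) it may be
taken with algebraic coefficients.  Rewrite it as an element of `Qb[X][X]`. -/
def PLNStmt : Prop := ∀ (n : ℕ) (P : Ideal (MvPolynomial (Fin n) ℂ)), P.IsPrime →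
  ringKrullDim (MvPolynomial (Fin n) ℂ ⧸ P) = 1 → DefQbar P → ∀ i j : Fin n,
  ∃ G : Qb[X][X], G ≠ 0 ∧ ∀ x : Fin n → Qb, (fun l => (x l : ℂ)) ∈ V P →
    evQ (RingHom.id Qb) G (x i) (x j) = 0

/-- NTP.  At most two large coordinates.  Uses LA, GR.  PROOF.  For distinct `i, j, k` take `G ∈ P` of
`NoTriple`, by LA (with the top exponent) with algebraic coefficients and top coefficient 1; for large
`p` all coefficients have norm `≤ 1`.  If `‖x_i‖, ‖x_j‖, ‖x_k‖ > 1` the top monomial is strictly larger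
than all the others (compare AO). -/
def NTPStmt : Prop := ∀ (n : ℕ) (P : Ideal (MvPolynomial (Fin n) ℂ)), DefQbar P → NoTriple P →
  ∃ p₀ : ℕ, ∀ p : ℕ, p.Prime → p₀ ≤ p →
  ∀ (K : Type) [NormedField K] [CharZero K] [IsUltrametricDist K], Ext p K → ∀ ι : Qb →+* K,
  ∀ x : Fin n → Qb, (fun l => (x l : ℂ)) ∈ V P → ∀ i j k : Fin n, i ≠ j → j ≠ k → i ≠ k →
    ‖ι (x i)‖ ≤ 1 ∨ ‖ι (x j)‖ ≤ 1 ∨ ‖ι (x k)‖ ≤ 1

/-- N3A.  A generic direction.  `f₁, f₂, f₃` are the classes of `X_i, X_j, X_k` in the domain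
`A = ℂ[X]/P` of dimension 1, none of them zero.  PROOF.  Let `s = f₃/f₂` in the fraction field; it is
algebraic over `ℂ(f₁)` if `f₁` is transcendental: `Q(f₁, f₂, f₃) = Σ_m q_m(f₁) f₃^m f₂^(N-m) = 0` with
polynomials `q_m` not all zero.  Let `D` be the largest degree of the `q_m` and `l_m` the coefficient
of `u^D` in `q_m`: `h(s) = Σ l_m s^m ≠ 0`.  Choose `α, β ∈ ℂ` nonzero with `h(-β/α) ≠ 0`.  If points of
`V P` had `|x_i| → ∞` and `(α x_k + β x_j)/x_j → 0`, i.e. `s → -β/α`, dividing the relation by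
`x_i^D x_j^N` would give `h(-β/α) = 0`.  So there are `R, δ > 0` with `|α x_k + β x_j| ≥ δ |x_j|`
whenever `|x_i| > R`, and, since then also `|α x_k| ≤ |α x_k + β x_j| + |β| |x_j|`,
`|α x_k + β x_j| ≥ δ' max (|x_j|, |x_k|)`.  (If `f₁` is a constant there is no point with `|x_i|`
large.) -/
def N3AStmt : Prop := ∀ (n : ℕ) (P : Ideal (MvPolynomial (Fin n) ℂ)), P.IsPrime →
  ringKrullDim (MvPolynomial (Fin n) ℂ ⧸ P) = 1 → ∀ i j k : Fin n, i ≠ j → j ≠ k → i ≠ k →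
  MvPolynomial.X j ∉ P → ∃ (a b : ℂ) (R δ : ℝ), a ≠ 0 ∧ b ≠ 0 ∧ 0 < δ ∧ ∀ x ∈ V P, R < ‖x i‖ →
    δ * ‖x j‖ ≤ ‖a * x k + b * x j‖ ∧ δ * ‖x k‖ ≤ ‖a * x k + b * x j‖

/-- N3B.  The geometric condition implies the algebraic one.  Uses N3A and `NDStmt` (row ND of the
squad ZPT).  PROOF.  If some of `X_i, X_j, X_k` is in `P`, it serves as `G`.  Otherwise take `a, b`
from N3A, `ℓ = a X_k + b X_j`.  If `ℓ ∈ P`: then for points with `|x_i| > R` all of `x_j, x_k` vanish,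
so `|x_i|` large forces `x_j = 0`; as `X_j ∉ P` this happens at finitely many points (CF), so `X_i` is
bounded on `V P`, `X_i` is a constant `κ` on it and `X_i - κ ∈ P` serves.  If `ℓ ∉ P`: let `P'` be the
kernel of `ℂ[X_1..X_n, Y] → A[1/ℓ]`, `Y ↦ X_j X_k/ℓ`: a prime ideal in `n + 1` variables with quotient
of dimension 1 (`Fin (n+1)`; localisation of a one-dimensional affine domain at a nonzero element has
dimension 1), containing `Y ℓ - X_j X_k`.  Points of `V P'`: `x ∈ V P` and `y ℓ(x) = x_j x_k`.  For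
the pair `(X_i, Y)`: by `BddTriples` with bound `B`, if `|x_i| > max(B, R)` then
`min(|x_j|, |x_k|) ≤ B` and, if `ℓ(x) ≠ 0`, `|y| = |x_j| |x_k|/|ℓ(x)| ≤ B/δ`; if `ℓ(x) = 0` then
`x_j = x_k = 0` and `y` is arbitrary: exclude this by adding to the coordinates also `Z ↦ 1/ℓ`
(`Fin (n+2)`), so that `ℓ(x) ≠ 0` on `V P'`.  Only the bound for the pair `(X_i, Y)` is available, so
use the proof of ND for this pair (helper92's file proves it pair by pair) or the direct argument.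
Result: `G₀(X_i, Y) ∈ P'`, with nonzero coefficient at `X_i^A Y^C`, `A`, `C` its degrees.  Substitute
`Y = X_j X_k/ℓ` and multiply by `ℓ^C`: `G = Σ g_st X_i^s (X_j X_k)^t ℓ^(C-t) ∈ P`, all degrees in
`X_i, X_j, X_k` at most `A, C, C`, and the monomial `X_i^A X_j^C X_k^C` appears only for
`(s,t) = (A,C)` (the `(j,k)`-part is homogeneous of degree `C + t`).  OPTIONAL ROW. -/
def N3BStmt : Prop := ∀ (n : ℕ) (P : Ideal (MvPolynomial (Fin n) ℂ)), P.IsPrime →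
  ringKrullDim (MvPolynomial (Fin n) ℂ ⧸ P) = 1 → BddTriples P → NoTriple P

/-! ### Block F: finiteness -/

/-- F3A.  Bounded level.  Uses PLN, PPT, BET, NTP, LOC3, NN, IK, IS, KT, TQ, TB, EH, URR, URA.
PROOF.  For all ordered pairs take `G` from PLN, the data of PPT (pair `x₂ = x_b` inner, `x₁ = x_a`
outer) and of BET (pair `x₂ = x_b`, `x₃ = x_c`); `E` = all `A l 0`; `p₀` larger than all the `p₀` and
all `6 r + 6`.  Let `x + c` be such that `X_i ~ X_j ~ X_k` (`X_l = x_l + c_l`).  By NTP at most two of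
`x_i, x_j, x_k` have norm `> 1` in `K`; the third has `‖X‖ = p > 1`, so (IK, IS) all three have norm
`> 1` and are related by `KI` (KT).  If at least two of the three are integral, NN (with `C = 1`) gives
a fixed level for this pair and TQ the conclusion.  If exactly two are not integral, call the larger
one `x_a`, the other `x_b`, the integral one `x_c`: PPT gives `t`, and `Pt` holds with
`g₁ = p c_a`, `g₂ = p c_b`, `g₃ = p c_c` (unramified units), `q`'s the Tate parameters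
(TS; those in `KI`); if `‖t‖^e = 1/p` then `‖x_b‖ = p` and BET gives `‖x_c - β‖ ≤ p^(-1/k) =: ε`.
LOC3: fixed exponents for one of the three pairs; TQ.  `N` = maximum of the finitely many levels. -/
def F3AStmt : Prop := ∀ (U : PowerSeries ℚ) (Psi : ℕ → ℚ[X][X]), IsU U → PsiC Psi →
  ∀ (n : ℕ) (P : Ideal (MvPolynomial (Fin n) ℂ)), P.IsPrime →
  ringKrullDim (MvPolynomial (Fin n) ℂ ⧸ P) = 1 → DefQbar P → NoTriple P →
  ∃ (p₀ : ℕ) (E : Finset Qb), ∀ p : ℕ, p.Prime → p₀ ≤ p →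
  ∀ (K : Type) [NormedField K] [CharZero K] [IsUltrametricDist K] [CompleteSpace K] [IsAlgClosed K],
  Ext p K → PsiK U Psi K → ∀ (ι : Qb →+* K) (c : Fin n → ℚ), (∀ i, ‖((c i : ℚ) : K)‖ = p) →
  (∀ i j, i ≠ j → ∀ α ∈ E, ‖((c i : ℚ) : K) - ι α * ((c j : ℚ) : K)‖ = p) →
  ∃ N : ℕ, ∀ x : Fin n → Qb, (fun l => (x l : ℂ)) ∈ V P →
    Atyp3 (fun l => (x l : ℂ) + ((c l : ℚ) : ℂ)) → ∃ u v : Fin n, u ≠ v ∧ ∃ m : ℕ, 1 ≤ m ∧ m ≤ N ∧
      ev2 (Psi m) ((x u : ℂ) + ((c u : ℚ) : ℂ)) ((x v : ℂ) + ((c v : ℚ) : ℂ)) = 0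

/-- F3B.  Finiteness from bounded level.  Uses IC, IB, CF, CA, PF.  PROOF as for F1: points `x ∈ V P`
with `x + c` atypical have algebraic coordinates (IC, PF, CF, CA and the hypothesis with IB); then `x`
is a zero of one of finitely many polynomials of PF, none in `P` (IB); CF. -/
def F3BStmt : Prop := ∀ (Psi : ℕ → ℚ[X][X]), PsiC Psi →
  ∀ (n : ℕ) (P : Ideal (MvPolynomial (Fin n) ℂ)), P.IsPrime →
  ringKrullDim (MvPolynomial (Fin n) ℂ ⧸ P) = 1 → DefQbar P → ∀ c : Fin n → ℚ,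
  (∃ N : ℕ, ∀ x : Fin n → Qb, (fun l => (x l : ℂ)) ∈ V P →
    Atyp3 (fun l => (x l : ℂ) + ((c l : ℚ) : ℂ)) → ∃ u v : Fin n, u ≠ v ∧ ∃ m : ℕ, 1 ≤ m ∧ m ≤ N ∧
      ev2 (Psi m) ((x u : ℂ) + ((c u : ℚ) : ℂ)) ((x v : ℂ) + ((c v : ℚ) : ℂ)) = 0) →
  T3For P (fun i => ((c i : ℚ) : ℂ))

/-! ### Block D: density -/

/-- DN3.  Density.  `B p` is a set of residues of `a` modulo `p`, of proportion at most `C/p`.  PROOF.
Given `ε` choose `p₁ ≥ p₀` with `C/p₁` and `Σ_{p ≥ p₁} 1/p²` small against `ε`, then a finite set `T` of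
primes `≥ p₁` with `Π_{p ∈ T} (1 - 1/p)` small (`Nat.Primes.not_summable_one_div`).  Bad pairs `(a, N)`:
(i) `N` has no divisor in `T`: by the Chinese remainder theorem at most
`(H/Q + 1) Q Π (1 - 1/p)` values of `N`, `Q = Π_T p`; (ii) `N` is divisible by `p²` for some `p ∈ T`: at
most `Σ H/p²` values; (iii) otherwise let `p` be the smallest element of `T` dividing `N`: `(a, N)` is
bad only if `p ∣ a_i` for some `i` or `a ∈ B p`, at most `(n + C) p^(n-1)` residues of `a` modulo `p`,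
hence at most `((2H+1)/p + 1)^n (n + C) p^(n-1) ≤ (3H)^n (n + C)/p` (for `H ≥ p`) values of `a`, for
each `N`.  Total at most `small * 3^n H^(n+1)`. -/
def DN3Stmt : Prop := ∀ (n p₀ : ℕ) (C ε : ℝ), 0 < ε → ∀ B : ℕ → Set (Fin n → ℤ),
  (∀ p : ℕ, p.Prime → ∀ a a' : Fin n → ℤ, (∀ i, (p : ℤ) ∣ a i - a' i) → (a ∈ B p ↔ a' ∈ B p)) →
  (∀ p : ℕ, p.Prime → p₀ ≤ p →
    (({a ∈ B p | ∀ i, 0 ≤ a i ∧ a i < p} : Set (Fin n → ℤ)).ncard : ℝ) * p ≤ C * (p : ℝ) ^ n) →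
  ∃ H₀ : ℕ, ∀ H : ℕ, H₀ ≤ H → ∀ A : Finset ((Fin n → ℤ) × ℤ),
    (∀ w ∈ A, (∀ i, |w.1 i| ≤ H) ∧ 1 ≤ w.2 ∧ w.2 ≤ H ∧ ¬ ∃ p : ℕ, p.Prime ∧ p₀ ≤ p ∧
      (p : ℤ) ∣ w.2 ∧ ¬ ((p : ℤ) ^ 2 ∣ w.2) ∧ (∀ i, ¬ (p : ℤ) ∣ w.1 i) ∧ w.1 ∉ B p) →
    (A.card : ℝ) ≤ ε * (H : ℝ) ^ (n + 1)

/-- BDC.  The exceptional residues.  PROOF.  `‖a_i - ι α a_j‖ < 1` depends on `a` modulo `p`; for given
`i ≠ j`, `α` and given `a_l`, `l ≠ i`, at most one residue `a_i` modulo `p` is possible (the difference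
of two is an integer of norm `< 1`).  Sum over `i, j, α`. -/
def BDCStmt : Prop := ∀ p : ℕ, p.Prime → ∀ (K : Type) [NormedField K] [CharZero K]
  [IsUltrametricDist K], Ext p K → ∀ (n : ℕ) (S : Finset K), (∀ α ∈ S, ‖α‖ ≤ 1) →
  (∀ a a' : Fin n → ℤ, (∀ i, (p : ℤ) ∣ a i - a' i) →
    ((∃ i j, i ≠ j ∧ ∃ α ∈ S, ‖((a i : ℤ) : K) - α * ((a j : ℤ) : K)‖ < 1) ↔
      ∃ i j, i ≠ j ∧ ∃ α ∈ S, ‖((a' i : ℤ) : K) - α * ((a' j : ℤ) : K)‖ < 1)) ∧
  (({a | (∃ i j, i ≠ j ∧ ∃ α ∈ S, ‖((a i : ℤ) : K) - α * ((a j : ℤ) : K)‖ < 1) ∧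
    ∀ i, 0 ≤ a i ∧ a i < p} : Set (Fin n → ℤ)).ncard : ℝ) * p ≤
      (n : ℝ) ^ 2 * (S.card : ℝ) * (p : ℝ) ^ n

/-- FN3.  The final theorem.  Uses KX, PS, F3A, F3B, DN3, BDC, URA.  (`K = ℂ_[p]`; for every prime fix
an embedding `Qb → ℂ_[p]`; `c = a/N` with `p ∣ N`, `p² ∤ N`, `p ∤ a_i` has norm `p`;
`‖ι α‖ ≤ 1` for `α ∈ E` by URA; for `p ∤ a_j`, `‖a_i - ι α a_j‖ = 1` or `< 1`.) -/
def FN3Stmt : Prop := ∀ (n : ℕ) (P : Ideal (MvPolynomial (Fin n) ℂ)), P.IsPrime →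
  ringKrullDim (MvPolynomial (Fin n) ℂ ⧸ P) = 1 → DefQbar P → NoTriple P →
  (∃ (p₀ : ℕ) (E : Finset Qb), ∀ (p : ℕ) [Fact p.Prime], p₀ ≤ p → ∀ (σ : Qb →+* ℂ_[p])
    (c : Fin n → ℚ), (∀ i, padicNorm p (c i) = p) →
    (∀ i j, i ≠ j → ∀ α ∈ E, ‖((c i : ℚ) : ℂ_[p]) - σ α * ((c j : ℚ) : ℂ_[p])‖ = p) →
    T3For P (fun i => ((c i : ℚ) : ℂ))) ∧
  ∀ ε : ℝ, 0 < ε → ∃ H₀ : ℕ, ∀ H : ℕ, H₀ ≤ H → ∀ A : Finset ((Fin n → ℤ) × ℤ),
    (∀ w ∈ A, (∀ i, |w.1 i| ≤ H) ∧ 1 ≤ w.2 ∧ w.2 ≤ H ∧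
      ¬ T3For P (fun i => (w.1 i : ℂ) / (w.2 : ℂ))) → (A.card : ℝ) ≤ ε * (H : ℝ) ^ (n + 1)

end

end Pool.Agent.ZP3
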