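import Pool.Agent.ZP3.Defs

/-!
Squad ZP3 (MP_6e1a06_nt): statements with proofs, blocks A (unramified elements), W (roots of unity),
T (three term relation), R (Raynaud).  `K` is a normed field of characteristic 0 whose norm is
ultrametric and extends the `p`-adic norm of `ℚ` (`Ext p K`).
-/

set_option autoImplicit false

namespace Pool.Agent.ZP3

open Polynomial Pool.Agent.ZPT

noncomputable section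

/-! ### Block A: unramified elements -/

/-- URR.  `Ur` is a ring; norm 1 or at most `1/p`; inverses of units.  PROOF.  If `a^(p^F) ≡ a mod p`
then `a^(p^(F j)) ≡ a` (raise the congruence to the power `p^F` again and again), so two elements
have a common `F`; `(a+b)^p ≡ a^p + b^p mod p`.  A rational number `r = m/n` with `p ∤ n` has
`r^p ≡ r` (Fermat).  If `1/p < ‖a‖ < 1` then `‖a^(p^F)‖ < ‖a‖` and `‖a^(p^F) - a‖ = ‖a‖ > 1/p`.  If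
`‖a‖ = 1` then `(a⁻¹)^(p^F) - a⁻¹ = (a - a^(p^F)) / (a^(p^F) a)`. -/
def URRStmt : Prop := ∀ p : ℕ, p.Prime → ∀ (K : Type) [NormedField K] [CharZero K]
  [IsUltrametricDist K], Ext p K →
  (∀ a b : K, Ur p a → Ur p b → Ur p (a + b) ∧ Ur p (a * b) ∧ Ur p (-a) ∧ Ur p (a - b)) ∧
  (∀ r : ℚ, padicNorm p r ≤ 1 → Ur p (r : K)) ∧ (∀ m : ℤ, Ur p (m : K)) ∧
  (∀ a : K, Ur p a → ‖a‖ < 1 → ‖a‖ ≤ (p : ℝ)⁻¹) ∧ (∀ a : K, Uu p a → Uu p a⁻¹)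

/-- URT.  Tame roots of unity are unramified; unramified units have unramified roots of exponent
prime to `p`.  PROOF.  (1) `x^M = 1`, `p ∤ M`: `p^F ≡ 1 mod M` for some `F ≥ 1`, `x^(p^F) = x`.
(2) `B = x^n`, `B^(p^F) ≡ B`, so `B^(p^F - 1) ∈ 1 + pO`.  Choose `j ≥ 1` with
`n ∣ 1 + p^F + ... + p^(F(j-1))` (for instance `j = n s` with `p^(F s) ≡ 1 mod n`).  Then
`n (p^F - 1) ∣ p^(F j) - 1`, so `x^(p^(F j) - 1)` is a power of `B^(p^F - 1)`, hence in `1 + pO`. -/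
def URTStmt : Prop := ∀ p : ℕ, p.Prime → ∀ (K : Type) [NormedField K] [CharZero K]
  [IsUltrametricDist K], Ext p K →
  (∀ x : K, Tame p x → Uu p x) ∧
  (∀ (x : K) (n : ℕ), 1 ≤ n → ¬ p ∣ n → ‖x‖ = 1 → Ur p (x ^ n) → Uu p x)

/-- URA.  Algebraic numbers are unramified for large `p`.  PROOF.  By URR one element suffices.  `g`
is a root of a primitive irreducible `f ∈ ℤ[X]` with leading coefficient `l`; for large `p` one has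
`p ∤ l` and `‖f'(ι g)‖ = 1` (`u f + v f' = c` with integer polynomials and `c ≠ 0`).  The ring
`(ZMod p)[X]/(f)` is finite, so `X^i = X^j` in it for some `i < j`, and since `f` is squarefree modulo
`p` this gives a power `F ≥ 1` with `X^(p^F) ≡ X` modulo every irreducible factor: directly, with
`n! ∣ F`, `n = deg f`, every element `z` of a field extension of degree `≤ n` of `ZMod p` has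
`z^(p^F) = z`; `ZMod p[X]/(f)` embeds in a product of such fields.  So
`X^(p^F) - X = f h + p k` in `ℤ_(p)[X]`; evaluate at `ι g`.  (So `f'` is only used to know that `f`
is squarefree modulo `p`.)  If `g ≠ 0` then `‖ι g‖ = 1` for large `p` (apply `GRStmt` to `g` and
`g⁻¹`). -/
def URAStmt : Prop := ∀ S : Finset Qb, ∃ p₀ : ℕ, ∀ p : ℕ, p.Prime → p₀ ≤ p →
  ∀ (K : Type) [NormedField K] [CharZero K] [IsUltrametricDist K], Ext p K →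
  ∀ (ι : Qb →+* K), ∀ g ∈ S, Ur p (ι g) ∧ (g ≠ 0 → ‖ι g‖ = 1)

/-- RES.  Tame roots of unity close to an unramified element have bounded order.  Uses WTM.  PROOF.
`B^(p^F) ≡ B`; if `‖x - B‖ < 1` then `‖x^(p^F) - x‖ < 1`, so `x^(p^F - 1)` is a tame root of unity
at distance `< 1` from 1: it is 1.  `M = p^F - 1`. -/
def RESStmt : Prop := ∀ p : ℕ, p.Prime → ∀ (K : Type) [NormedField K] [CharZero K]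
  [IsUltrametricDist K], Ext p K → ∀ B : K, Ur p B →
  ∃ M : ℕ, 1 ≤ M ∧ ∀ x : K, Tame p x → ‖x - B‖ < 1 → x ^ M = 1

/-! ### Block W: roots of unity -/

/-- THB.  Numbers: `th p ^ (p-1) = 1/p`, `0 < th p < 1`, `1/p < th p ^ 3` for `p ≥ 5`, and
`p ^ (-1/(2 e)) < th p ^ 3` if `6 e + 1 < p`. -/
def THBStmt : Prop := ∀ p : ℕ, p.Prime → 5 ≤ p → th p ^ (p - 1) = (p : ℝ)⁻¹ ∧ 0 < th p ∧ th p < 1 ∧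
  (p : ℝ)⁻¹ < th p ^ 3 ∧
  ∀ e : ℕ, 1 ≤ e → 6 * e + 1 < p → (p : ℝ) ^ (-(1 : ℝ) / (2 * (e : ℝ))) < th p ^ 3

/-- SPL.  Splitting of a root of unity in its prime-to-`p` part and its `p`-part. -/
def SPLStmt : Prop := ∀ p : ℕ, p.Prime → ∀ (K : Type) [NormedField K] [CharZero K], ∀ x : K, Ro x →
  ∃ y w : K, x = y * w ∧ Tame p y ∧ (w = 1 ∨ ∃ k : ℕ, 1 ≤ k ∧ IsPrimitiveRoot w (p ^ k))

/-- WTM.  A tame root of unity `≠ 1` is not congruent to 1.  PROOF.  Otherwise some power `w ≠ 1` of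
it has prime order `l ≠ p` and `y = w - 1` has `0 < ‖y‖ < 1`:
`0 = (1+y)^l - 1 = l y + Σ_{i ≥ 2} C(l,i) y^i`, `‖l y‖ = ‖y‖ > ‖y‖^2`. -/
def WTMStmt : Prop := ∀ p : ℕ, p.Prime → ∀ (K : Type) [NormedField K] [CharZero K]
  [IsUltrametricDist K], Ext p K → ∀ x : K, Tame p x → ‖x - 1‖ < 1 → x = 1

/-- WWN.  Size of `w - 1` for a primitive `p^k`-th root of unity.  PROOF.
`Π (1 - w^a) = p` over `1 ≤ a < p^k`, `p ∤ a` (value of the cyclotomic polynomial at 1,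
`Polynomial.eval_one_cyclotomic_prime_pow`), and all factors have the same norm:
`(1 - w^a)/(1 - w)` and `(1 - w)/(1 - w^a)` are polynomials in `w` (`w = (w^a)^b`).  The number of
factors is `p^(k-1) (p-1)`, at least `p - 1`. -/
def WWNStmt : Prop := ∀ p : ℕ, p.Prime → 3 ≤ p → ∀ (K : Type) [NormedField K] [CharZero K]
  [IsUltrametricDist K], Ext p K → ∀ (k : ℕ) (w : K), 1 ≤ k → IsPrimitiveRoot w (p ^ k) →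
  ‖w - 1‖ ^ (p ^ (k - 1) * (p - 1)) = (p : ℝ)⁻¹ ∧ th p ≤ ‖w - 1‖ ∧ ‖w - 1‖ < 1 ∧
    (k = 1 → ‖w - 1‖ = th p)

/-- ROU.  Uses SPL, WTM, WWN.  All roots of unity `≠ 1` have `‖x - 1‖ ≥ th p` (`x = y w`: if `y ≠ 1`
then `‖x - 1‖ = ‖y - 1‖ = 1` as `‖w - 1‖ < 1`). -/
def ROUStmt : Prop := ∀ p : ℕ, p.Prime → 3 ≤ p → ∀ (K : Type) [NormedField K] [CharZero K]
  [IsUltrametricDist K], Ext p K → ∀ x : K, Ro x → x ≠ 1 → th p ≤ ‖x - 1‖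

/-- ZKL.  The key expansion.  Uses WWN, THB.  PROOF.  `k = 1`: with `y = w - 1`,
`0 = ((1+y)^p - 1)/y`, i.e. `y^(p-1) = - Σ_{i=1}^{p-1} C(p,i) y^(i-1)
= - p (1 + ((p-1)/2) y + ((p-1)(p-2)/6) y^2 + ...)`, all `C(p,i)/p` integers, so
`y^(p-1)/(-p) = 1 - y/2 + y^2/3 + O(‖y‖^3)` (errors `p y` are `O(‖y‖^5)`).  Let `s` be an integer with
`2 s ≡ 1 mod p`; `w^s = 1 + s y + C(s,2) y^2 + O(y^3)`, and `s ≡ 1/2`, `C(s,2) ≡ -1/8` modulo `p`.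
So `w^s y^(p-1)/(-p) = 1 + (1/3 - 1/4 - 1/8) y^2 + O(‖y‖^3) = 1 - y^2/24 + O(‖y‖^3)`, and
`‖y^2/24‖ = th^2` (`p ≥ 5`).  `x = - w^s`.
`k ≥ 2`, induction: `w' = w^p`, `y' = w' - 1 = y^p + Σ_{0<i<p} C(p,i) y^i`, so
`y^p = y' (1 + d)`, `‖d‖ = ‖p y / y'‖ < th^2` (exponent `1 + 1/φ_k - 1/φ_(k-1) ≥ 1 - 1/p`, where
`φ_j = p^(j-1)(p-1)`), and `y^(φ_k) = (y^p)^(φ_(k-1)) = y'^(φ_(k-1)) (1 + d)^(φ_(k-1))`, so the value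
for `w` is the value for `w'` times `1 + d'`, `‖d'‖ < th^2`; same `x`. -/
def ZKLStmt : Prop := ∀ p : ℕ, p.Prime → 5 ≤ p → ∀ (K : Type) [NormedField K] [CharZero K]
  [IsUltrametricDist K], Ext p K → ∀ (k : ℕ) (w : K), 1 ≤ k → IsPrimitiveRoot w (p ^ k) →
  ∃ x : K, Ro x ∧ ‖(w - 1) ^ (p ^ (k - 1) * (p - 1)) / (p : K) * x - 1‖ = th p ^ 2

/-- WLM.  Uses ZKL, ROU, THB.  PROOF.  Let `z = (w-1)^φ/p`, `z x₀ = 1 + h`, `‖h‖ = th^2` (ZKL), and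
suppose `‖z B x - 1‖ < th^2`.  `B^(p^F) ≡ B` gives `B^m ∈ 1 + pO`, `m = p^F - 1`, `p ∤ m`.  Then
`(z B x)^m = 1 + d`, `‖d‖ < th^2`, so `z^m x^m = 1 + d'`, `‖d'‖ < th^2` (`1/p < th^2`); and
`z^m x₀^m = (1+h)^m = 1 + h'`, `‖h'‖ = ‖m h‖ = th^2`.  The root of unity `ζ = x^m/x₀^m` has
`ζ (1 + h') = 1 + d'`, so `‖ζ - 1‖ ≤ th^2 < th`, `ζ = 1` by ROU, `h' = d'`, contradiction. -/
def WLMStmt : Prop := ∀ p : ℕ, p.Prime → 5 ≤ p → ∀ (K : Type) [NormedField K] [CharZero K]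
  [IsUltrametricDist K], Ext p K → ∀ (k : ℕ) (w B x : K), 1 ≤ k → IsPrimitiveRoot w (p ^ k) →
  Uu p B → Ro x → th p ^ 2 ≤ ‖(w - 1) ^ (p ^ (k - 1) * (p - 1)) / (p : K) * B * x - 1‖

/-- LVV.  Uses SPL, URR, URT, WWN, THB.  PROOF.  `x = x_t η^r`, `y = y_t η^s` with `η` a primitive
`p^k`-th root of unity generating the group of the `p`-parts, `k ≥ 1` if not both are tame, and then
`p ∤ r` or `p ∤ s`.  `α = a x_t`, `β = b y_t` are in `Ur`.  With `h = η - 1`, `th ≤ ‖h‖ < 1`: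
`a x + b y - 1 = T₀ + T₁ h + T₂ h² + O(‖h‖³)`, `T₀ = α + β - 1`, `T₁ = α r + β s`,
`T₂ = α C(r,2) + β C(s,2)`, all in `Ur`, so each has norm 1 or `≤ 1/p < ‖h‖³`.  The sum has norm
`< th² ≤ ‖h‖²`, hence successively `‖T₀‖, ‖T₁‖, ‖T₂‖ < 1`.  Then, modulo the maximal ideal,
`α + β = 1`, `α r + β s = 0`, and (`2 T₂ + T₁`) `α r² + β s² = 0`; so `α r (r - s) = 0`:
`p ∣ r` gives `p ∣ s`; `r ≡ s` gives `r (α + β) = 0`, `p ∣ r`; contradiction. -/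
def LVVStmt : Prop := ∀ p : ℕ, p.Prime → 5 ≤ p → ∀ (K : Type) [NormedField K] [CharZero K]
  [IsUltrametricDist K], Ext p K → ∀ a b x y : K, Uu p a → Uu p b → Ro x → Ro y →
  ‖a * x + b * y - 1‖ < th p ^ 2 → Tame p x ∧ Tame p y

/-! ### Block T: the three term relation -/

/-- DEP.  If `x^a = z^b`, `y^c = z^d` (positive exponents), `‖z‖ ≠ 1`, `z ≠ 0`, and `‖x‖ = ‖y‖`, then
`x/y` is a root of unity (`x^(a d) = z^(b d) = y^(c b)`, the norms give `a d = c b`); in particular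
(`y = z`) if `‖x‖ = ‖z‖` then `x/z` is a root of unity.  If `‖x‖^u = ‖z‖^v` with `u, v ≥ 1`, then
`x^u = ζ z^v` with a root of unity `ζ` (`(x^u)^a = z^(b u)`, `b u = a v` by the norms). -/
def DEPStmt : Prop := ∀ (K : Type) [NormedField K] (x y z : K) (a b c d : ℕ), z ≠ 0 → ‖z‖ ≠ 1 →
  1 ≤ a → 1 ≤ b → 1 ≤ c → 1 ≤ d → x ^ a = z ^ b → y ^ c = z ^ d →
  (‖x‖ = ‖y‖ → Ro (x / y)) ∧ (‖x‖ = ‖z‖ → Ro (x / z)) ∧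
  ∀ u v : ℕ, 1 ≤ u → 1 ≤ v → ‖x‖ ^ u = ‖z‖ ^ v → ∃ ζ : K, Ro ζ ∧ x ^ u = ζ * z ^ v

/-- TTL.  The three term lemma.  Uses URR, URT, SPL, WTM, WWN, WLM, LVV, DEP, THB.  PROOF.
`‖M₃‖ = p` since `‖κ‖ = 1`; the terms `Y₁, Y₂` of norm `≥ th p * p` have `Y_i = B_i M_i (1 + O(ρ))`.
By the ultrametric inequality there are four cases.
(a) `‖Y₁‖ = ‖Y₂‖ = p`.  `ξ_i = M_i/M₃` is a root of unity (DEP) and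
`(B₁/B₃) ξ₁ + (B₂/B₃) ξ₂ = 1 + O(ρ)`, LVV.
(b) `‖Y₁‖ = ‖Y₂‖ > p`.  `ξ = M₁/M₂` is a root of unity, `ξ = ξ_t η` (SPL).  `Y₁/Y₂ ≡ -1`, so
`-(B₁/B₂) ξ_t ≡ 1`, hence `= 1 + O(1/p)` (URR), `Y₁/Y₂ = -η (1 + O(ρ'))`, `ρ' = max(ρ, 1/p)`.
If `η ≠ 1` is primitive of order `p^k`, `φ = p^(k-1)(p-1)`:
`Y₃ = Y₁ + Y₂ = -Y₂ (η - 1)(1 + δ)`, `‖δ‖ ≤ ρ'/th < th²`, so `‖Y₂‖^φ = p^(φ+1)`; by DEP
`M₂^φ = ζ M₃^(φ+1)`.  From `B₃ M₃ = -B₂ M₂ (η-1)(1+δ')`: `(η-1)^φ M₃ = ζ' B (1 + δ'')` with `B` an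
unramified unit, so `(η-1)^φ/p * κ B' ζ'' = 1 + δ'''`, `‖δ'''‖ < th²`: contradiction with WLM.
(c) `‖Y₁‖ = p > ‖Y₂‖`.  `ξ = M₁/M₃ = ξ_t η`, `Y₁/Y₃ ≡ 1`, `(B₁/B₃) ξ_t = 1 + O(1/p)`,
`Y₁/Y₃ = η (1 + O(ρ'))`.  If `η ≠ 1`: `Y₂/Y₃ = -(η-1)(1 + δ)`, `‖Y₂‖ = p ‖η-1‖ ≥ th p * p`, so
`M₂` is available, `‖M₂‖^φ = p^(φ-1) = ‖M₃‖^(φ-1)`, `M₂^φ = ζ M₃^(φ-1)`,
`M₂ = -(B₃/B₂)(η-1) M₃ (1+δ')`, so `(η-1)^φ M₃ = ζ' B (1+δ'')`: contradiction as before.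
(d) symmetric. -/
def TTLStmt : Prop := ∀ p : ℕ, p.Prime → 7 ≤ p → ∀ (K : Type) [NormedField K] [CharZero K]
  [IsUltrametricDist K], Ext p K → ∀ (Y₁ Y₂ Y₃ M₁ M₂ M₃ B₁ B₂ B₃ κ : K) (ρ : ℝ), 0 ≤ ρ →
  ρ < th p ^ 3 → Y₁ + Y₂ = Y₃ → ‖Y₃‖ = p → Uu p B₁ → Uu p B₂ → Uu p B₃ → Uu p κ →
  ‖Y₃ - B₃ * M₃‖ ≤ ρ * p → ‖(p : K) * M₃ - κ‖ ≤ ρ →
  (th p * p ≤ ‖Y₁‖ → ‖Y₁ - B₁ * M₁‖ ≤ ρ * ‖Y₁‖ ∧ ∃ a b : ℕ, 1 ≤ a ∧ 1 ≤ b ∧ M₁ ^ a = M₃ ^ b) →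
  (th p * p ≤ ‖Y₂‖ → ‖Y₂ - B₂ * M₂‖ ≤ ρ * ‖Y₂‖ ∧ ∃ a b : ℕ, 1 ≤ a ∧ 1 ≤ b ∧ M₂ ^ a = M₃ ^ b) →
  (‖Y₁‖ = p ∧ ‖Y₂‖ = p ∧ Tame p (M₁ / M₃) ∧ Tame p (M₂ / M₃)) ∨
  (p < ‖Y₁‖ ∧ ‖Y₁‖ = ‖Y₂‖ ∧ Tame p (M₁ / M₂) ∧ ‖M₁ / M₂ + B₂ / B₁‖ < 1) ∨
  (‖Y₁‖ = p ∧ ‖Y₂‖ < p ∧ Tame p (M₁ / M₃) ∧ ‖M₁ / M₃ - B₃ / B₁‖ < 1) ∨
  (‖Y₁‖ < p ∧ ‖Y₂‖ = p ∧ Tame p (M₂ / M₃) ∧ ‖M₂ / M₃ - B₃ / B₂‖ < 1)

/-- TAT.  Tate parameters: `1/q = X - u₁ + O(q)`, `u₁` the coefficient of `q` in `U`.  Uses TB.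
PROOF.  `q X = U(q) = 1 + u₁ q + O(q²)`. -/
def TATStmt : Prop := ∀ U : PowerSeries ℚ, IsU U → ∀ p : ℕ, p.Prime → 5 ≤ p →
  ∀ (K : Type) [NormedField K] [CharZero K] [IsUltrametricDist K] [CompleteSpace K], Ext p K →
  ‖((PowerSeries.coeff 1 U : ℚ) : K)‖ ≤ 1 ∧ ∀ q : K, 0 < ‖q‖ → ‖q‖ < 1 →
    ‖jv U q‖ = ‖q‖⁻¹ ∧ ‖q⁻¹ - (jv U q - ((PowerSeries.coeff 1 U : ℚ) : K))‖ ≤ ‖q‖

/-- MTH.  Nearby roots.  PROOF.  `w = x/y^n`, `‖w - 1‖ ≤ ρ < 1`; the roots `z_i` of `Z^n = w` satisfy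
`Π (1 - z_i) = ±(1 - w)`, so one of them, `z`, has `‖1 - z‖ < 1`; the others are `z ζ` with
`ζ^n = 1`, `ζ ≠ 1`, so `‖1 - ζ z‖ = 1` (WTM), hence `‖1 - z‖ = ‖1 - w‖`.  `m = z y`. -/
def MTHStmt : Prop := ∀ p : ℕ, p.Prime → ∀ (K : Type) [NormedField K] [CharZero K]
  [IsUltrametricDist K] [IsAlgClosed K], Ext p K → ∀ (n : ℕ) (x y : K) (ρ : ℝ), 1 ≤ n → ¬ p ∣ n →
  y ≠ 0 → ρ < 1 → ‖x - y ^ n‖ ≤ ρ * ‖y ^ n‖ → ∃ m : K, m ^ n = x ∧ ‖m - y‖ ≤ ρ * ‖y‖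

/-- LP1.  First pattern `e < r`: reduction to the vertex.  Uses TTL, TAT, MTH, RES, ROU, URR, URT, DEP,
THB.  Notation `M_i = q_i⁻¹`, `X_i = jv U q_i`, `c_i = γ_i/p`, `θ = 1/t^e`, `x₁` the first summand of
`X₁`, `α = A 0`; `‖θ‖ = ‖t‖^(-e)`, `‖x₁‖ = ‖t‖^(-r)`.  PROOF.
`‖X₃‖ = p` and `‖p M₃ - γ₃‖ ≤ 1/p`, `M₃ = c₃(1 + O(1/p))`.
Case 1: `‖θ‖ < th p * p`.  Then `‖X₂‖ = p`, `ξ = M₂/M₃ = q₃/q₂` is a root of unity and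
`ξ = (γ₂/γ₃)(1 + θ/c₂ + O(1/p))`, `‖θ/c₂‖ < th`.  `ξ = ξ_t w` (SPL), `w ≡ 1`, so `ξ_t ≡ γ₂/γ₃`, hence
`ξ_t γ₃/γ₂ = 1 + O(1/p)` (URR) and `‖w - 1‖ < th`, `w = 1` (ROU); RES bounds the order of `ξ`.
Case 2: `‖θ‖ ≥ th p * p`.  `ρ = p^(-1/(2e))`.  `‖t‖ ≤ ρ` and `p/‖x₁‖ = p ‖θ‖^(-r/e) ≤ ρ` because
`(1 - 1/(p-1))(1 + 1/e) ≥ 1 + 1/(2e)`.  `M₁ = x₁(1 + O(ρ))`, so with `b^r = α^e` (an unramified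
unit by URT) `M₁^e = x₁^e (1+O(ρ)) = (b θ)^r (1 + O(ρ))` (as `x₁^e = θ^r (Σ A_n t^n)^e`), and MTH gives
`M_θ`, `M_θ^r = M₁^e`, `‖M_θ - b θ‖ ≤ ρ ‖θ‖`.  `M_θ^(r a) = M₁^(e a) = M₃^(e b')` by `d13`.
TTL with `Y₁ = X₂`, `M₁ := q₂⁻¹`, `B₁ = 1`, `Y₂ = -θ`, `M₂ := M_θ`, `B₂ = -1/b`, `Y₃ = c₂`,
`B₃ = γ₂/γ₃`, `κ = γ₃` (`‖q₂⁻¹ - X₂‖ ≤ 1 ≤ ρ ‖X₂‖` if `‖X₂‖ ≥ th p * p`).
In the cases (b), (c), (d) of TTL the tame root of unity is congruent to an unramified unit which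
depends only on the data (`-B₂/B₁`, `B₃/B₁`, `B₃/B₂`): RES bounds its order; case (b):
`(q₂⁻¹)^M = M_θ^M`, so `q₂^(r M) = q₁^(e M)`; case (c): `q₂^M = q₃^M`; case (d): `M_θ^M = M₃^M`,
`q₁^(e M) = q₃^(r M)`.  Case (a) is the vertex: `‖X₂‖ = ‖θ‖ = p`, `Tame (q₃/q₂)` and
`ξ = M_θ/M₃` tame, `ξ^r q₃^(-r) = q₁^(-e)`. -/
def LP1Stmt : Prop := ∀ U : PowerSeries ℚ, IsU U → ∀ p : ℕ, p.Prime →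
  ∀ (K : Type) [NormedField K] [CharZero K] [IsUltrametricDist K] [CompleteSpace K] [IsAlgClosed K],
  Ext p K → ∀ (e r : ℕ) (A : ℕ → K) (g₁ g₂ g₃ : K), 1 ≤ e → e < r → 6 * r + 6 < p →
  (∀ n, Ur p (A n)) → ‖A 0‖ = 1 → Uu p g₁ → Uu p g₂ → Uu p g₃ →
  ∃ M : ℕ, 1 ≤ M ∧ ∀ t x₃ q₁ q₂ q₃ : K, Pt p U e r A g₁ g₂ g₃ t x₃ q₁ q₂ q₃ →
    q₂ ^ M = q₃ ^ M ∨ q₁ ^ (e * M) = q₃ ^ (r * M) ∨ q₁ ^ (e * M) = q₂ ^ (r * M) ∨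
    (‖t‖ ^ e = (p : ℝ)⁻¹ ∧ ‖q₂‖ = (p : ℝ)⁻¹ ∧ Tame p (q₃ / q₂) ∧
      ∃ ξ : K, Tame p ξ ∧ q₃ ^ r = ξ ^ r * q₁ ^ e)

/-- LP2.  Second pattern `r = e`: reduction to the vertex.  Uses TTL, TAT, RES, ROU, URR, URT, DEP, THB.
`α = A 0`, `D = γ₁ - α γ₂` is a unit, `C = -D/p`.  PROOF.  `x₁ = θ Σ A_n t^n = θ (α + O(t))`.
Far region `‖θ‖ > p / th p`: `X₂ = θ (1 + o(th))`, `X₁ = α θ (1 + o(th))` (`‖t‖ = ‖θ‖^(-1/e) < th`),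
`ξ = q₂/q₁` is a root of unity (DEP) and `ξ = α (1 + o(th))`, so its `p`-part is 1 and it is congruent
to `α`: RES, `q₂^M = q₁^M`.
Near region `‖θ‖ ≤ p / th p`: `Y₁ = α X₂`, `M₁ := q₂⁻¹`, `B₁ = α`, `Y₂ = -X₁`, `M₂ := q₁⁻¹`,
`B₂ = -1`, `Y₃ = α X₂ - X₁ = C + θ (α - Σ A_n t^n)`, `‖θ t‖ = ‖θ‖^(1 - 1/e) ≤ p ρ`,
`ρ = p^(-1/(2e))`, so `‖Y₃‖ = p`, `B₃ = -D/γ₃`, `κ = γ₃`; TTL.  Cases (b), (c), (d): the tame root of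
unity is congruent to an unramified unit depending only on the data, RES.  Case (a): if `‖θ‖ < p` then
`q₃/q₂ = M₂/M₃ ≡ X₂/X₃ ≡ γ₂/γ₃` and RES applies; `‖θ‖ > p` is impossible (`‖X₂‖ = ‖θ‖`); so
`‖θ‖ = p`, the vertex. -/
def LP2Stmt : Prop := ∀ U : PowerSeries ℚ, IsU U → ∀ p : ℕ, p.Prime →
  ∀ (K : Type) [NormedField K] [CharZero K] [IsUltrametricDist K] [CompleteSpace K] [IsAlgClosed K],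
  Ext p K → ∀ (e : ℕ) (A : ℕ → K) (g₁ g₂ g₃ : K), 1 ≤ e → 6 * e + 6 < p →
  (∀ n, Ur p (A n)) → ‖A 0‖ = 1 → Uu p g₁ → Uu p g₂ → Uu p g₃ → ‖g₁ - A 0 * g₂‖ = 1 →
  ∃ M : ℕ, 1 ≤ M ∧ ∀ t x₃ q₁ q₂ q₃ : K, Pt p U e e A g₁ g₂ g₃ t x₃ q₁ q₂ q₃ →
    q₂ ^ M = q₃ ^ M ∨ q₁ ^ M = q₃ ^ M ∨ q₁ ^ M = q₂ ^ M ∨
    (‖t‖ ^ e = (p : ℝ)⁻¹ ∧ ‖q₂‖ = (p : ℝ)⁻¹ ∧ ‖q₁‖ = (p : ℝ)⁻¹ ∧ Tame p (q₃ / q₂) ∧
      Tame p (q₃ / q₁))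

/-! ### Block R: the vertex (Raynaud's argument modulo `p^(1+δ)`) -/

/-- GNR.  Polynomials of Gauss norm 1.  PROOF.  `N = c Π (X - r_i)`; for `‖T‖ ≤ 1`,
`‖N(T)‖ = ‖c‖ Π_{‖r_i‖>1} ‖r_i‖ * Π_{‖r_i‖≤1} ‖T - r_i‖` and the first factor is `≥ ‖coefficient‖`
for every coefficient of `N`, hence `≥ 1`.  So if `‖N(T)‖ < 1` then `‖T - r_i‖ < 1` for a root with
`‖r_i‖ ≤ 1`. -/
def GNRStmt : Prop := ∀ (K : Type) [NormedField K] [IsUltrametricDist K] [IsAlgClosed K] (N : K[X]),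
  (∃ i, 1 ≤ ‖N.coeff i‖) →
  ∃ R : Finset K, ∀ T : K, ‖T‖ ≤ 1 → ‖N.eval T‖ < 1 → ∃ ρ ∈ R, ‖T - ρ‖ < 1

/-- RAY.  Raynaud's argument.  Uses URR, URT, GNR, WTM.  PROOF.  Let `F` be a common exponent of `a`,
`b`; `a₁ = a^(p^(F-1))`, `b₁ = b^(p^(F-1))`: unramified units with `‖a₁^p - a‖ ≤ 1/p`,
`‖b₁^p - b‖ ≤ 1/p`.  Let `X₁`, `Y₁` be the tame roots of unity with `X₁^p = X`, `Y₁^p = Y`,
`T^p = τ`, `d₁^p = d` in `K`.  `y = a₁ X₁ + b₁ Y₁` is in `Ur` and `y^p ≡ a X + b Y ≡ 1` modulo the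
maximal ideal, so `‖y - 1‖ < 1`, `‖y - 1‖ ≤ 1/p`, `‖y^p - 1‖ ≤ 1/p²`.  Expanding,
`y^p = a₁^p X + b₁^p Y + p R(a₁X₁, b₁Y₁)`, `R(u,v) = Σ_{0<i<p} (C(p,i)/p) u^i v^(p-i)`; hence with
`a' = (a - a₁^p)/p`, `b' = (b - b₁^p)/p` (integral)
`R(a₁X₁, b₁Y₁) ≡ -G(X, τ) + a' X + b' Y` modulo the maximal ideal.
Modulo the maximal ideal: `b₁Y₁ ≡ 1 - a₁X₁`; `X₁ ≡ ν' T^(-e)` with `ν' = 1/d₁` (compare `p`-th powers;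
`u^p ≡ v^p` implies `u ≡ v`), `X ≡ d⁻¹ T^(-pe)`, `τ = T^p`, `Y ≡ (1 - a X)/b`; and for `p` odd
`R(u, 1-u) = (1 - u^p - (1-u)^p)/p = Σ_{j=1}^{p-1} (-1)^(j+1) (C(p,j)/p) u^j`.
So with `ν = a₁ ν'` (a unit) and `L` a large multiple of `p`, the polynomial
`N(T) = Σ_j (-1)^(j+1) (C(p,j)/p) ν^j T^(L - e j) + (polynomial in T^p)` (coefficients independent of
the point: multiply the relation by `T^L`) has `‖N(T)‖ < 1`; the coefficient of `T^(L-e)` is `ν`,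
because `e j ≡ e mod p` only for `j = 1` and `p ∤ L - e`.  GNR: `T` is in one of finitely many
residue discs, hence `X ≡ d⁻¹ T^(-pe)` too, and two congruent tame roots of unity are equal (WTM), so
there are finitely many `X`: take for `M` the product of their orders. -/
def RAYStmt : Prop := ∀ p : ℕ, p.Prime → 5 ≤ p → ∀ (K : Type) [NormedField K] [CharZero K]
  [IsUltrametricDist K] [IsAlgClosed K], Ext p K →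
  ∀ (e : ℕ) (a b d : K) (G : K[X][X]) (ε : ℝ), 1 ≤ e → ¬ p ∣ e → Uu p a → Uu p b → ‖d‖ = 1 →
  (∀ i j, ‖(G.coeff i).coeff j‖ ≤ 1) → ε < 1 →
  ∃ M : ℕ, 1 ≤ M ∧ ∀ X Y τ : K, Tame p X → Tame p Y → ‖τ‖ = 1 → ‖1 / τ ^ e - d * X‖ < 1 →
    ‖a * X + b * Y - 1 - (p : K) * (G.map (Polynomial.evalRingHom τ)).eval X‖ ≤ ε * (p : ℝ)⁻¹ →
    X ^ M = 1

/-- SEP.  Separation of the powers of `π`.  Uses URR.  PROOF.  If some `‖L i‖ = 1`, `1 ≤ i < e`, take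
the smallest such `i`; the other `L i` have norm `≤ 1/p`, so `‖Σ‖ = p^(-i/e)`, strictly between
`1/p` and `1`, and this is `‖w‖`: impossible for `w ∈ Ur`.  So all `‖L i‖ ≤ 1/p` for `1 ≤ i < e`. -/
def SEPStmt : Prop := ∀ p : ℕ, p.Prime → ∀ (K : Type) [NormedField K] [CharZero K]
  [IsUltrametricDist K], Ext p K → ∀ (e : ℕ) (π w : K) (L : ℕ → K) (ε : ℝ), 1 ≤ e →
  π ^ e = (p : K) → Ur p w → (∀ i, Ur p (L i)) → ‖π‖ ≤ ε → ε < 1 →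
  ‖w - ∑ i ∈ Finset.Icc 1 e, π ^ i * L i‖ ≤ ε * (p : ℝ)⁻¹ →
  ‖w - (p : K) * L e‖ ≤ ε * (p : ℝ)⁻¹

/-- VR2.  The second coordinate at the vertex (both patterns).  Uses TAT, MTH.  `κ = γ₃ + p (β - u₁)`,
`Y = q₃/q₂`, `τ = t/π`.  PROOF.  `p q₃⁻¹ = p X₃ - p u₁ + O(p⁻²) = κ + p (x₃ - β) + O(p⁻²)`,
`p q₂⁻¹ = τ^(-e) + γ₂ - p u₁ + O(p⁻²)` (`π^e = p`).  So `Y κ = τ^(-e) + γ₂ - p u₁ + O(ε/p)`.  `Y`, `κ`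
are unramified units, `κ Y - γ₂ + p u₁` is in `Ur` and has norm `‖τ‖^(-e) = 1`; MTH gives `τ₀` with
`τ₀^e (κ Y - γ₂ + p u₁) = 1` and `‖τ - τ₀‖ ≤ ε/p`; `τ₀` is unramified by URT. -/
def VR2Stmt : Prop := ∀ U : PowerSeries ℚ, IsU U → ∀ p : ℕ, p.Prime → 5 ≤ p →
  ∀ (K : Type) [NormedField K] [CharZero K] [IsUltrametricDist K] [CompleteSpace K] [IsAlgClosed K],
  Ext p K → ∀ (e r : ℕ) (A : ℕ → K) (g₁ g₂ g₃ β π : K) (ε : ℝ), 1 ≤ e → ¬ p ∣ e →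
  (∀ n, Ur p (A n)) → Uu p g₂ → Uu p g₃ → Ur p β → π ^ e = (p : K) → ‖π‖ ≤ ε → ε < 1 →
  ∀ t x₃ q₁ q₂ q₃ : K, Pt p U e r A g₁ g₂ g₃ t x₃ q₁ q₂ q₃ → ‖t‖ ^ e = (p : ℝ)⁻¹ →
    ‖q₂‖ = (p : ℝ)⁻¹ → Tame p (q₃ / q₂) → ‖x₃ - β‖ ≤ ε →
    ‖(p : K) / q₃ - (g₃ + p * (β - ((PowerSeries.coeff 1 U : ℚ) : K)))‖ ≤ ε * (p : ℝ)⁻¹ ∧
    ∃ τ₀ : K, Uu p τ₀ ∧ ‖t / π - τ₀‖ ≤ ε * (p : ℝ)⁻¹ ∧
      τ₀ ^ e * ((g₃ + p * (β - ((PowerSeries.coeff 1 U : ℚ) : K))) * (q₃ / q₂) - g₂ +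
        p * ((PowerSeries.coeff 1 U : ℚ) : K)) = 1

/-- VX1.  The vertex in the first pattern.  Uses VR2, SEP, RAY, TAT, MTH, URR, URT.  PROOF.
`κ`, `τ₀`, `Y = q₃/q₂` as in VR2.  Multiply `q₁⁻¹ = X₁ - u₁ + O(q₁)` by `t^r`:
`t^r q₁⁻¹ = Σ A_n t^n + (γ₁/p - u₁) t^r + O(p⁻²)`, where `t = π τ`,
`(γ₁/p - u₁) t^r = (γ₁ - p u₁) π^(r-e) τ^r`.  `q₃^r = ξ^r q₁^e` and `t^(r e) = p^r τ^(r e)` give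
`(t^r q₁⁻¹)^e = ξ^r (p q₃⁻¹)^r τ^(e r)`.  Replace `τ` by `τ₀` and `p q₃⁻¹` by `κ` (errors `ε/p`) and
cut the series after `n = e` (`‖π^(e+1)‖ ≤ ε/p`):
`(Σ_{n≤e} A_n (π τ₀)^n + (γ₁ - p u₁) π^(r-e) τ₀^r)^e = ξ^r κ^r τ₀^(e r) + O(ε/p)`.
The left side is `A₀^e + Σ_{1≤i≤e} π^i L_i(τ₀) + O(ε/p)` with polynomials `L_i` over `Ur` that depend only
on the data (expand the `e`-th power of a polynomial in `π`, using `π^e = p` only for the powers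
above `e`); the right side and `A₀^e` are in `Ur`; SEP:
`ξ^r κ^r τ₀^(e r) = A₀^e + p L_e(τ₀) + O(ε/p)`.  With `b^r = A₀^e` (`b ∈ Ur`, URT) and MTH:
`ξ κ τ₀^e = ζ b (1 + p L_e(τ₀)/(r A₀^e)) + O(ε/p)` with `ζ^r = 1`.  Put `X = ξ/ζ` (tame):
`κ Y - γ₂ + p u₁ = τ₀^(-e) = (κ/b) X (1 - p L_e(τ₀)/(r A₀^e)) + O(ε/p)`.  Divide by `γ₂`:
RAY with `a = -κ/(b γ₂)`, `b := κ/γ₂`, `d = κ/b`,
`G(X, τ) = -u₁/γ₂ - (κ/(b γ₂ r A₀^e)) X L_e(τ)`, `τ = τ₀`.  So `X^M = 1`, `ξ^(r M) = X^(r M) = 1` and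
`q₃^(r M) = q₁^(e M)` with `M` replaced by `r M`. -/
def VX1Stmt : Prop := ∀ U : PowerSeries ℚ, IsU U → ∀ p : ℕ, p.Prime → 5 ≤ p →
  ∀ (K : Type) [NormedField K] [CharZero K] [IsUltrametricDist K] [CompleteSpace K] [IsAlgClosed K],
  Ext p K → ∀ (e r : ℕ) (A : ℕ → K) (g₁ g₂ g₃ β : K) (ε : ℝ), 1 ≤ e → e < r → r < p →
  (∀ n, Ur p (A n)) → ‖A 0‖ = 1 → Uu p g₁ → Uu p g₂ → Uu p g₃ → Ur p β → ε < 1 →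
  ∃ M : ℕ, 1 ≤ M ∧ ∀ t x₃ q₁ q₂ q₃ ξ : K, Pt p U e r A g₁ g₂ g₃ t x₃ q₁ q₂ q₃ →
    ‖x₃ - β‖ ≤ ε → ‖t‖ ^ e = (p : ℝ)⁻¹ → ‖q₂‖ = (p : ℝ)⁻¹ → Tame p (q₃ / q₂) → Tame p ξ →
    q₃ ^ r = ξ ^ r * q₁ ^ e → q₁ ^ (e * M) = q₃ ^ (r * M)

/-- VX2.  The vertex in the second pattern.  Uses VR2, SEP, RAY, TAT, URR.  PROOF.  `X = q₃/q₁` is tame.
`p q₁⁻¹ = τ^(-e) Σ A_n (π τ)^n + γ₁ - p u₁ + O(p⁻²)`, so with VR2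
`κ X = A₀ τ₀^(-e) + γ₁ - p u₁ + Σ_{1≤i≤e} π^i A_i τ₀^(i-e) + O(ε/p)`; SEP applied to
`w = κ X - A₀ τ₀^(-e) - γ₁ + p u₁`, `L_i = A_i τ₀^(i-e)`: `w = p A_e + O(ε/p)`.  Insert
`τ₀^(-e) = κ Y - γ₂ + p u₁`: `κ X - A₀ κ Y = D + p (A_e - u₁ + A₀ u₁) + O(ε/p)`, `D = γ₁ - A₀ γ₂`.
RAY with `e = 1`, `d = 1`, `τ = 1/X`, `a = κ/D`, `b = -A₀ κ/D`, `G` the constant
`(A_e - u₁ + A₀ u₁)/D`: `X^M = 1`. -/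
def VX2Stmt : Prop := ∀ U : PowerSeries ℚ, IsU U → ∀ p : ℕ, p.Prime → 5 ≤ p →
  ∀ (K : Type) [NormedField K] [CharZero K] [IsUltrametricDist K] [CompleteSpace K] [IsAlgClosed K],
  Ext p K → ∀ (e : ℕ) (A : ℕ → K) (g₁ g₂ g₃ β : K) (ε : ℝ), 1 ≤ e → e < p →
  (∀ n, Ur p (A n)) → ‖A 0‖ = 1 → Uu p g₁ → Uu p g₂ → Uu p g₃ → Ur p β → ‖g₁ - A 0 * g₂‖ = 1 → ε < 1 →
  ∃ M : ℕ, 1 ≤ M ∧ ∀ t x₃ q₁ q₂ q₃ : K, Pt p U e e A g₁ g₂ g₃ t x₃ q₁ q₂ q₃ →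
    ‖x₃ - β‖ ≤ ε → ‖t‖ ^ e = (p : ℝ)⁻¹ → ‖q₂‖ = (p : ℝ)⁻¹ → ‖q₁‖ = (p : ℝ)⁻¹ →
    Tame p (q₃ / q₂) → Tame p (q₃ / q₁) → q₁ ^ M = q₃ ^ M

/-- LOC3.  The local theorem.  Uses LP1, LP2, VX1, VX2 (combine; for `r = e` use exponent `e M`). -/
def LOC3Stmt : Prop := ∀ U : PowerSeries ℚ, IsU U → ∀ p : ℕ, p.Prime →
  ∀ (K : Type) [NormedField K] [CharZero K] [IsUltrametricDist K] [CompleteSpace K] [IsAlgClosed K],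
  Ext p K → ∀ (e r : ℕ) (A : ℕ → K) (g₁ g₂ g₃ : K) (S : Finset K) (ε : ℝ), 1 ≤ e → e ≤ r →
  6 * r + 6 < p → (∀ n, Ur p (A n)) → ‖A 0‖ = 1 → Uu p g₁ → Uu p g₂ → Uu p g₃ →
  (r = e → ‖g₁ - A 0 * g₂‖ = 1) → (∀ β ∈ S, Ur p β) → ε < 1 →
  ∃ M : ℕ, 1 ≤ M ∧ ∀ t x₃ q₁ q₂ q₃ : K, Pt p U e r A g₁ g₂ g₃ t x₃ q₁ q₂ q₃ →
    (‖t‖ ^ e = (p : ℝ)⁻¹ → ∃ β ∈ S, ‖x₃ - β‖ ≤ ε) →
    q₂ ^ M = q₃ ^ M ∨ q₁ ^ (e * M) = q₃ ^ (r * M) ∨ q₁ ^ (e * M) = q₂ ^ (r * M)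

end

end Pool.Agent.ZP3
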